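import Pool.Agent.P.MP_b28ae3_lc.Inf4

set_option autoImplicit false

namespace Pool.Agent.Results.MP_b28ae3_lc.AllTriples

/-- For every finite `n ≥ 3` and all `a, b ≥ n`, finite or countably infinite (`⊤`), there are
Borel graphs with Borel chromatic numbers `a` and `b` whose product has Borel chromatic
number `n`. A Borel colouring with at most `m` colours is a Borel map to `{i : ℕ | i < m}`. -/
theorem result (n : ℕ) (hn : 3 ≤ n) (a b : ℕ∞) (ha : (n : ℕ∞) ≤ a) (hb : (n : ℕ∞) ≤ b) :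
    ∃ (X X' : Type) (_ : MeasurableSpace X) (_ : StandardBorelSpace X)
      (_ : MeasurableSpace X') (_ : StandardBorelSpace X')
      (G : SimpleGraph X) (G' : SimpleGraph X'),
      MeasurableSet {p : X × X | G.Adj p.1 p.2} ∧
      MeasurableSet {p : X' × X' | G'.Adj p.1 p.2} ∧
      (∀ m : ℕ∞, (∃ c : X → ℕ, Measurable c ∧ (∀ x, (c x : ℕ∞) < m) ∧
          ∀ x y, G.Adj x y → c x ≠ c y) ↔ a ≤ m) ∧
      (∀ m : ℕ∞, (∃ c : X' → ℕ, Measurable c ∧ (∀ x, (c x : ℕ∞) < m) ∧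
          ∀ x y, G'.Adj x y → c x ≠ c y) ↔ b ≤ m) ∧
      (∀ m : ℕ∞, (∃ c : X × X' → ℕ, Measurable c ∧ (∀ p, (c p : ℕ∞) < m) ∧
          ∀ x y : X, ∀ x' y' : X', G.Adj x y → G'.Adj x' y' → c (x, x') ≠ c (y, y')) ↔
        (n : ℕ∞) ≤ m) := by
  obtain ⟨H, H', h1, h2, h3, h4, h5⟩ := Pool.Agent.P.MP_b28ae3_lc.all_triples n hn a b ha hb
  refine ⟨_, _, inferInstance, inferInstance, inferInstance, inferInstance, H, H', h1, h2, h3, h4,
    fun m => Iff.trans ?_ (h5 m)⟩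
  exact ⟨fun ⟨c, g1, g2, g3⟩ => ⟨c, g1, g2, fun p q h => g3 p.1 q.1 p.2 q.2 h.1 h.2⟩,
    fun ⟨c, g1, g2, g3⟩ => ⟨c, g1, g2, fun x y x' y' h h' => g3 (x, x') (y, y') ⟨h, h'⟩⟩⟩

end Pool.Agent.Results.MP_b28ae3_lc.AllTriples
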